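import Mathlib

/-!
# The localized clique-counting inequality for uniform hypergraphs

For all `t ≥ q > i ≥ 1` and every `q`-uniform hypergraph with `m` edges, the sum over all
`t`-cliques `T` of `1 / C(x(T) - q, t - q)` is at most `m / C(t, q)`.

The proof counts the pairs of a `t`-clique and an `i`-subset of it, and bounds the number of
`t`-cliques containing a given `i`-set by the clique form of Lovasz's version of the
Kruskal-Katona theorem, applied to the link of the `i`-set.
-/

set_option autoImplicit false
set_option linter.unusedSectionVars false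

namespace Pool.Agent.Results.MP_cab928_co.LocalizedCliques

open Finset

/-- The binomial coefficient `x (x - 1) ... (x - k + 1) / k!` of a real number `x`. -/
noncomputable def rchoose (x : ℝ) (k : ℕ) : ℝ :=
  (∏ j ∈ range k, (x - (j : ℝ))) / (k.factorial : ℝ)

variable {V : Type*} [Fintype V] [DecidableEq V]

/-- The degree of a set of vertices: the number of edges containing it. -/
def deg (H : Finset (Finset V)) (I : Finset V) : ℕ := (H.filter fun e => I ⊆ e).card

/-- The `t`-cliques: the `t`-sets all of whose `q`-subsets are edges. -/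
def cliques (H : Finset (Finset V)) (q t : ℕ) : Finset (Finset V) :=
  (univ.powersetCard t).filter fun T => T.powersetCard q ⊆ H

/-- The number `x(I)`: the largest real solution of `d(I) = C(x - |I|, q - |I|)`. -/
noncomputable def xSet (H : Finset (Finset V)) (q : ℕ) (I : Finset V) : ℝ :=
  sSup {y : ℝ | (deg H I : ℝ) = rchoose (y - (I.card : ℝ)) (q - I.card)}

/-- The number `x(T)`: the largest of the numbers `x(I)` of the `i`-subsets `I` of `T`. -/
noncomputable def xMax (H : Finset (Finset V)) (q i : ℕ) (T : Finset V) : ℝ :=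
  sSup (xSet H q '' {I : Finset V | I ⊆ T ∧ I.card = i})

/-! ### Binomial coefficients of real numbers -/

theorem rchoose_zero (x : ℝ) : rchoose x 0 = 1 := by simp [rchoose]

theorem rchoose_succ (x : ℝ) (k : ℕ) : ((k : ℝ) + 1) * rchoose x (k + 1) = (x - k) * rchoose x k := by
  unfold rchoose
  rw [prod_range_succ, Nat.factorial_succ]
  have h : (k.factorial : ℝ) ≠ 0 := by positivity
  push_cast
  field_simp

theorem rchoose_pascal (x : ℝ) (k : ℕ) :
    ((k : ℝ) + 1) * rchoose x (k + 1) = x * rchoose (x - 1) k := by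
  unfold rchoose
  rw [prod_range_succ', Nat.factorial_succ]
  have h : (k.factorial : ℝ) ≠ 0 := by positivity
  have h2 : ∏ j ∈ range k, (x - ((j + 1 : ℕ) : ℝ)) = ∏ j ∈ range k, (x - 1 - (j : ℝ)) := by
    apply prod_congr rfl
    intro j _
    push_cast
    ring
  rw [h2]
  push_cast
  field_simp
  ring

theorem rchoose_nonneg {x : ℝ} {k : ℕ} (h : (k : ℝ) - 1 ≤ x) : 0 ≤ rchoose x k := by
  unfold rchoose
  apply div_nonneg _ (by positivity)
  apply prod_nonneg
  intro j hj
  have : (j : ℝ) + 1 ≤ k := by exact_mod_cast (mem_range.1 hj)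
  linarith

theorem rchoose_pos {x : ℝ} {k : ℕ} (h : (k : ℝ) - 1 < x) : 0 < rchoose x k := by
  unfold rchoose
  apply div_pos _ (by positivity)
  apply prod_pos
  intro j hj
  have : (j : ℝ) + 1 ≤ k := by exact_mod_cast (mem_range.1 hj)
  linarith

theorem rchoose_natCast (n k : ℕ) : rchoose (n : ℝ) k = (n.choose k : ℝ) := by
  induction k with
  | zero => simp [rchoose]
  | succ k ih =>
    have h1 := rchoose_succ (n : ℝ) k
    rw [ih] at h1
    have h2 := Nat.choose_succ_right_eq n k
    have h3 : ((n.choose (k + 1) : ℕ) : ℝ) * ((k : ℝ) + 1) = (n.choose k : ℝ) * ((n : ℝ) - k) := by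
      rcases le_or_gt k n with h | h
      · have h4 : ((n - k : ℕ) : ℝ) = (n : ℝ) - k := Nat.cast_sub h
        rw [← h4]
        exact_mod_cast h2
      · rw [Nat.choose_eq_zero_of_lt h, Nat.choose_eq_zero_of_lt (by omega)]
        simp
    have h5 : (0 : ℝ) < (k : ℝ) + 1 := by positivity
    apply mul_left_cancel₀ h5.ne'
    rw [h1]
    linarith

theorem rchoose_strictMono {k : ℕ} (hk : 1 ≤ k) {x y : ℝ} (hx : (k : ℝ) - 1 ≤ x) (hxy : x < y) :
    rchoose x k < rchoose y k := by
  unfold rchoose
  apply div_lt_div_of_pos_right _ (by positivity)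
  apply prod_lt_prod_of_nonempty' hx hxy hk
where
  prod_lt_prod_of_nonempty' {k : ℕ} {x y : ℝ} (hx : (k : ℝ) - 1 ≤ x) (hxy : x < y) (hk : 1 ≤ k) :
      ∏ j ∈ range k, (x - (j : ℝ)) < ∏ j ∈ range k, (y - (j : ℝ)) := by
    obtain ⟨m, rfl⟩ : ∃ m, k = m + 1 := ⟨k - 1, by omega⟩
    rw [prod_range_succ, prod_range_succ]
    push_cast at hx
    have h1 : ∏ j ∈ range m, (x - (j : ℝ)) ≤ ∏ j ∈ range m, (y - (j : ℝ)) := by
      apply prod_le_prod
      · intro j hj
        have : (j : ℝ) + 1 ≤ m := by exact_mod_cast (mem_range.1 hj)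
        linarith
      · intro j _
        linarith
    have h2 : 0 < ∏ j ∈ range m, (y - (j : ℝ)) := by
      apply prod_pos
      intro j hj
      have : (j : ℝ) + 1 ≤ m := by exact_mod_cast (mem_range.1 hj)
      linarith
    calc (∏ j ∈ range m, (x - (j : ℝ))) * (x - m)
        ≤ (∏ j ∈ range m, (y - (j : ℝ))) * (x - m) :=
          mul_le_mul_of_nonneg_right h1 (by linarith)
      _ < (∏ j ∈ range m, (y - (j : ℝ))) * (y - m) :=
          mul_lt_mul_of_pos_left (by linarith) h2

theorem rchoose_mono {k : ℕ} {x y : ℝ} (hx : (k : ℝ) - 1 ≤ x) (hxy : x ≤ y) :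
    rchoose x k ≤ rchoose y k := by
  rcases Nat.eq_zero_or_pos k with h | h
  · subst h; simp [rchoose_zero]
  rcases hxy.eq_or_lt with rfl | h'
  · exact le_rfl
  · exact (rchoose_strictMono h hx h').le

/-- `C(x, a + b)` in terms of `C(x, a)` and `C(x - a, b)`. -/
theorem rchoose_add (x : ℝ) (a b : ℕ) :
    rchoose x (a + b) * ((a + b).choose a : ℝ) = rchoose x a * rchoose (x - a) b := by
  unfold rchoose
  rw [prod_range_add]
  have h1 : ((a + b).choose a : ℝ) * (a.factorial : ℝ) * (b.factorial : ℝ) =
      ((a + b).factorial : ℝ) := by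
    have := Nat.choose_mul_factorial_mul_factorial (Nat.le_add_right a b)
    rw [Nat.add_sub_cancel_left] at this
    exact_mod_cast this
  have h2 : ∏ j ∈ range b, (x - ((a + j : ℕ) : ℝ)) = ∏ j ∈ range b, (x - a - (j : ℝ)) := by
    apply prod_congr rfl
    intro j _
    push_cast
    ring
  rw [h2, ← h1]
  have ha : (a.factorial : ℝ) ≠ 0 := by positivity
  have hb : (b.factorial : ℝ) ≠ 0 := by positivity
  have hc : ((a + b).choose a : ℝ) ≠ 0 := by
    have := Nat.choose_pos (Nat.le_add_right a b)
    positivity
  field_simp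

theorem rchoose_continuous (k : ℕ) : Continuous fun x : ℝ => rchoose x k := by
  unfold rchoose
  fun_prop

/-- Every natural number is a value on `[k - 1, ∞)`. -/
theorem exists_rchoose {k : ℕ} (hk : 1 ≤ k) (d : ℕ) :
    ∃ z : ℝ, (k : ℝ) - 1 ≤ z ∧ rchoose z k = d := by
  have h0 : rchoose ((k : ℝ) - 1) k = 0 := by
    have h1 : ((k : ℝ) - 1) = ((k - 1 : ℕ) : ℝ) := by
      rw [Nat.cast_sub hk]; simp
    rw [h1, rchoose_natCast, Nat.choose_eq_zero_of_lt (by omega)]
    simp
  have h1 : (d : ℝ) ≤ rchoose ((k + d : ℕ) : ℝ) k := by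
    rw [rchoose_natCast]
    have h2 : d ≤ (k + d).choose k := by
      have h3 : (k + d).choose 1 ≤ (k + d).choose k ∨ d = 0 := by
        rcases Nat.eq_zero_or_pos d with h | h
        · exact Or.inr h
        · left
          rw [Nat.choose_one_right]
          have h4 : (k + d).choose (k + d - 1) = k + d := by
            rw [Nat.choose_symm_of_eq_add (b := 1) (by omega), Nat.choose_one_right]
          have h5 := Nat.add_one_mul_choose_eq (k + d - 1) (k - 1)
          have h6 : k + d - 1 + 1 = k + d := by omega
          have h7 : k - 1 + 1 = k := by omega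
          rw [h6, h7] at h5
          have h8 : k ≤ (k + d - 1).choose (k - 1) := by
            have : (k - 1 + 1).choose (k - 1) ≤ (k + d - 1).choose (k - 1) :=
              Nat.choose_le_choose _ (by omega)
            rw [Nat.choose_succ_self_right, h7] at this
            exact this
          have h9 : (k + d) * k ≤ (k + d).choose k * k := by
            rw [← h5]
            exact Nat.mul_le_mul_left _ h8
          exact Nat.le_of_mul_le_mul_right h9 hk
      rcases h3 with h3 | h3
      · rw [Nat.choose_one_right] at h3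
        omega
      · omega
    exact_mod_cast h2
  have h2 : ((k : ℝ) - 1) ≤ ((k + d : ℕ) : ℝ) := by
    push_cast
    have : (0 : ℝ) ≤ d := by positivity
    linarith
  obtain ⟨z, hz, hz'⟩ := intermediate_value_Icc h2 (rchoose_continuous k).continuousOn
    ⟨by rw [h0]; positivity, h1⟩
  exact ⟨z, hz.1, hz'⟩

/-! ### Lovász's version of the Kruskal-Katona theorem for cliques -/

/-- The link of a set of vertices. -/
def link (H : Finset (Finset V)) (I : Finset V) : Finset (Finset V) :=
  (H.filter fun e => I ⊆ e).image fun e => e \ I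

theorem card_link (H : Finset (Finset V)) (I : Finset V) : (link H I).card = deg H I := by
  unfold link deg
  apply card_image_of_injOn
  intro e he f hf hef
  simp only [coe_filter, Set.mem_ofPred_eq] at he hf
  have h1 : e = (e \ I) ∪ I := (sdiff_union_of_subset he.2).symm
  have h2 : f = (f \ I) ∪ I := (sdiff_union_of_subset hf.2).symm
  have h3 : e \ I = f \ I := hef
  rw [h1, h2, h3]

theorem link_uniform {H : Finset (Finset V)} {q : ℕ} (hH : ∀ e ∈ H, e.card = q) (I : Finset V) :
    ∀ e ∈ link H I, e.card = q - I.card := by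
  intro e he
  obtain ⟨f, hf, rfl⟩ := mem_image.1 he
  rw [mem_filter] at hf
  rw [card_sdiff_of_subset hf.2, hH f hf.1]

theorem mem_cliques {H : Finset (Finset V)} {q t : ℕ} {T : Finset V} :
    T ∈ cliques H q t ↔ T.card = t ∧ ∀ e ⊆ T, e.card = q → e ∈ H := by
  unfold cliques
  rw [mem_filter, mem_powersetCard]
  constructor
  · rintro ⟨⟨_, h1⟩, h2⟩
    exact ⟨h1, fun e he hc => h2 (mem_powersetCard.2 ⟨he, hc⟩)⟩
  · rintro ⟨h1, h2⟩
    refine ⟨⟨subset_univ _, h1⟩, fun e he => ?_⟩
    rw [mem_powersetCard] at he
    exact h2 e he.1 he.2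

/-- Removing a set `I` from a clique containing it gives a clique of the link. -/
theorem sdiff_mem_cliques_link {H : Finset (Finset V)} {q t : ℕ} {T I : Finset V}
    (hT : T ∈ cliques H q t) (hI : I ⊆ T) (hi : I.card ≤ q) :
    T \ I ∈ cliques (link H I) (q - I.card) (t - I.card) := by
  rw [mem_cliques] at hT ⊢
  refine ⟨by rw [card_sdiff_of_subset hI, hT.1], fun e he hc => ?_⟩
  have hd : Disjoint e I := disjoint_of_subset_left he sdiff_disjoint
  unfold link
  rw [mem_image]
  refine ⟨e ∪ I, ?_, ?_⟩
  · rw [mem_filter]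
    refine ⟨hT.2 _ (union_subset (he.trans sdiff_subset) hI) ?_, subset_union_right⟩
    rw [card_union_of_disjoint hd, hc]
    omega
  · rw [union_sdiff_right, sdiff_eq_self_of_disjoint hd]

theorem card_filter_cliques_le {H : Finset (Finset V)} {q t : ℕ} (I : Finset V)
    (hi : I.card ≤ q) :
    ((cliques H q t).filter fun T => I ⊆ T).card ≤
      (cliques (link H I) (q - I.card) (t - I.card)).card := by
  apply card_le_card_of_injOn (fun T => T \ I)
  · intro T hT
    rw [mem_coe, mem_filter] at hT
    exact sdiff_mem_cliques_link hT.1 hT.2 hi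
  · intro e he f hf hef
    rw [mem_coe, mem_filter] at he hf
    have h1 : e = (e \ I) ∪ I := (sdiff_union_of_subset he.2).symm
    have h2 : f = (f \ I) ∪ I := (sdiff_union_of_subset hf.2).symm
    have h3 : e \ I = f \ I := hef
    rw [h1, h2, h3]

theorem sum_card_filter_mem (F : Finset (Finset V)) :
    ∑ v : V, (F.filter fun T => {v} ⊆ T).card = ∑ T ∈ F, T.card := by
  simp_rw [card_eq_sum_ones, sum_filter]
  rw [sum_comm]
  apply sum_congr rfl
  intro T _
  simp

/-- The step of Keevash's proof: `(r + 1) k_{r+1}(G) ≤ (z - r) |G|` if `|G| ≤ C(z, r)`. -/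
theorem keevash_step (r : ℕ) : ∀ (G : Finset (Finset V)) (z : ℝ), (∀ e ∈ G, e.card = r + 1) →
    ((r : ℝ) + 1) ≤ z → (G.card : ℝ) ≤ rchoose z (r + 1) →
    ((r : ℝ) + 2) * ((cliques G (r + 1) (r + 2)).card : ℝ) ≤ (z - (r + 1)) * (G.card : ℝ) := by
  induction r with
  | zero =>
    intro G z hG hz hGz
    have hz' : (G.card : ℝ) ≤ z := by
      have : rchoose z 1 = z := by simp [rchoose]
      rw [zero_add, this] at hGz
      exact hGz
    set S : Finset V := univ.filter fun v => {v} ∈ G with hS
    have hSG : S.card ≤ G.card := by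
      apply card_le_card_of_injOn (fun v => {v})
      · intro v hv
        rw [mem_coe, hS, mem_filter] at hv
        exact hv.2
      · intro a _ b _ hab
        exact singleton_injective hab
    have hc : (cliques G 1 2).card ≤ S.card.choose 2 := by
      rw [← card_powersetCard]
      apply card_le_card
      intro T hT
      rw [mem_cliques] at hT
      rw [mem_powersetCard]
      refine ⟨fun v hv => ?_, hT.1⟩
      rw [hS, mem_filter]
      exact ⟨mem_univ _, hT.2 _ (singleton_subset_iff.2 hv) (card_singleton v)⟩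
    have hc2 : 2 * (cliques G 1 2).card ≤ G.card * (G.card - 1) := by
      have h1 : S.card.choose 2 ≤ G.card.choose 2 := Nat.choose_le_choose 2 hSG
      have h2 : 2 * G.card.choose 2 = G.card * (G.card - 1) := by
        rw [Nat.choose_two_right, Nat.mul_div_cancel' (Nat.even_mul_pred_self _).two_dvd]
      omega
    rcases Nat.eq_zero_or_pos G.card with h0 | h0
    · rw [h0] at hc2
      have : (cliques G 1 2).card = 0 := by omega
      simp only [zero_add, h0, this]
      simp
    · have h3 : (2 : ℝ) * ((cliques G 1 2).card : ℝ) ≤ G.card * ((G.card : ℝ) - 1) := by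
        have : ((G.card - 1 : ℕ) : ℝ) = (G.card : ℝ) - 1 := by
          rw [Nat.cast_sub h0]; simp
        rw [← this]
        exact_mod_cast hc2
      simp only [zero_add, Nat.cast_zero]
      have h4 : (0 : ℝ) < G.card := by exact_mod_cast h0
      nlinarith
  | succ r ih =>
    intro G z hG hz hGz
    have hG' : ∀ e ∈ G, e.card = r + 2 := hG
    push_cast at hz
    have key : ∀ v : V, ((r : ℝ) + 2) *
        (((cliques G (r + 2) (r + 3)).filter fun T => {v} ⊆ T).card : ℝ) ≤
          (z - (r + 2)) * ((G.filter fun T => {v} ⊆ T).card : ℝ) := by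
      intro v
      rcases le_total (rchoose (z - 1) (r + 1)) ((G.filter fun T => {v} ⊆ T).card : ℝ) with h | h
      · have h1 : ((cliques G (r + 2) (r + 3)).filter fun T => {v} ⊆ T).card +
            (G.filter fun T => {v} ⊆ T).card ≤ G.card := by
          rw [← card_filter_add_card_filter_not (s := G) (p := fun T => {v} ⊆ T), add_comm]
          apply Nat.add_le_add_left
          apply card_le_card_of_injOn (fun T => T.erase v)
          · intro T hT
            rw [mem_coe, mem_filter, singleton_subset_iff, mem_cliques] at hT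
            rw [mem_coe, mem_filter, singleton_subset_iff]
            refine ⟨hT.1.2 _ (erase_subset _ _) ?_, notMem_erase _ _⟩
            rw [card_erase_of_mem hT.2, hT.1.1]
            rfl
          · intro e he f hf hef
            rw [mem_coe, mem_filter, singleton_subset_iff] at he hf
            rw [← insert_erase he.2, ← insert_erase hf.2]
            have h3 : e.erase v = f.erase v := hef
            rw [h3]
        have h2 : (((cliques G (r + 2) (r + 3)).filter fun T => {v} ⊆ T).card : ℝ) +
            ((G.filter fun T => {v} ⊆ T).card : ℝ) ≤ G.card := by exact_mod_cast h1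
        have h3 := rchoose_pascal z (r + 1)
        push_cast at h3
        have h4 : (G.card : ℝ) ≤ rchoose z (r + 1 + 1) := hGz
        have h5 : z * rchoose (z - 1) (r + 1) ≤ z * ((G.filter fun T => {v} ⊆ T).card : ℝ) :=
          mul_le_mul_of_nonneg_left h (by have : (0 : ℝ) ≤ r := by positivity
                                          linarith)
        have h6 : (0 : ℝ) ≤ r := by positivity
        nlinarith
      · have h1 := ih (link G {v}) (z - 1) (by
          intro e he
          have := link_uniform hG' {v} e he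
          rw [card_singleton] at this
          exact this) (by linarith) (by rw [card_link]; exact h)
        rw [card_link] at h1
        have h2 := card_filter_cliques_le (H := G) (q := r + 2) (t := r + 3) {v}
          (by rw [card_singleton]; omega)
        rw [card_singleton] at h2
        have h3 : (((cliques G (r + 2) (r + 3)).filter fun T => {v} ⊆ T).card : ℝ) ≤
            ((cliques (link G {v}) (r + 1) (r + 2)).card : ℝ) := by exact_mod_cast h2
        have h6 : (0 : ℝ) ≤ r := by positivity
        calc ((r : ℝ) + 2) * (((cliques G (r + 2) (r + 3)).filter fun T => {v} ⊆ T).card : ℝ)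
            ≤ ((r : ℝ) + 2) * ((cliques (link G {v}) (r + 1) (r + 2)).card : ℝ) :=
              mul_le_mul_of_nonneg_left h3 (by linarith)
          _ ≤ (z - 1 - (r + 1)) * (deg G {v} : ℝ) := h1
          _ = (z - (r + 2)) * ((G.filter fun T => {v} ⊆ T).card : ℝ) := by
              unfold deg
              ring
    have hsum := sum_le_sum fun v (_ : v ∈ (univ : Finset V)) => key v
    rw [← mul_sum, ← mul_sum, ← Nat.cast_sum, ← Nat.cast_sum, sum_card_filter_mem,
      sum_card_filter_mem] at hsum
    have e1 : ∑ T ∈ cliques G (r + 2) (r + 3), T.card =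
        (cliques G (r + 2) (r + 3)).card * (r + 3) := by
      rw [sum_const_nat]
      intro T hT
      exact (mem_cliques.1 hT).1
    have e2 : ∑ T ∈ G, T.card = G.card * (r + 2) := by
      rw [sum_const_nat]
      exact hG'
    rw [e1, e2] at hsum
    push_cast at hsum ⊢
    have h6 : (0 : ℝ) < (r : ℝ) + 2 := by positivity
    have h7 : ((r : ℝ) + 2) * (((r : ℝ) + 3) * ((cliques G (r + 2) (r + 3)).card : ℝ)) ≤
        ((r : ℝ) + 2) * ((z - (r + 2)) * G.card) := by linarith
    have h8 := le_of_mul_le_mul_left h7 h6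
    have h9 : ((r : ℝ) + 1 + 2) * ((cliques G (r + 1 + 1) (r + 1 + 2)).card : ℝ) =
        ((r : ℝ) + 3) * ((cliques G (r + 2) (r + 3)).card : ℝ) := by
      ring_nf
    rw [h9]
    linarith

/-- The cliques of size `s` of a family of `r`-sets with at most `C(z, r)` members number at most
`C(z, s)`, if there are any. -/
theorem card_cliques_le {r : ℕ} (hr : 1 ≤ r) {G : Finset (Finset V)} (_hG : ∀ e ∈ G, e.card = r)
    {z : ℝ} (hz : (r : ℝ) - 1 ≤ z) (hGz : (G.card : ℝ) = rchoose z r) {s : ℕ} (hs : r ≤ s)
    {T : Finset V} (hT : T ∈ cliques G r s) :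
    (s : ℝ) ≤ z ∧ ((cliques G r s).card : ℝ) ≤ rchoose z s := by
  have hzs : (s : ℝ) ≤ z := by
    by_contra hcon
    push Not at hcon
    have h1 := rchoose_strictMono hr hz hcon
    rw [rchoose_natCast, ← hGz] at h1
    have h2 : s.choose r ≤ G.card := by
      rw [mem_cliques] at hT
      rw [← hT.1, ← card_powersetCard]
      apply card_le_card
      intro e he
      rw [mem_powersetCard] at he
      exact hT.2 e he.1 he.2
    have h3 : ((s.choose r : ℕ) : ℝ) ≤ G.card := by exact_mod_cast h2
    linarith
  refine ⟨hzs, ?_⟩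
  clear hT
  induction s, hs using Nat.le_induction with
  | base =>
    rw [← hGz]
    have : cliques G r r ⊆ G := by
      intro e he
      rw [mem_cliques] at he
      exact he.2 e (Subset.refl _) he.1
    exact_mod_cast card_le_card this
  | succ s hs ih =>
    push_cast at hzs
    have h1 := ih (by linarith)
    obtain ⟨r', hr'⟩ : ∃ r', s = r' + 1 := ⟨s - 1, by omega⟩
    subst hr'
    have h2 := keevash_step r' (cliques G r (r' + 1)) z
      (fun e he => (mem_cliques.1 he).1) (by push_cast at hzs; linarith) h1
    have h3 : (cliques G r (r' + 1 + 1)).card ≤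
        (cliques (cliques G r (r' + 1)) (r' + 1) (r' + 2)).card := by
      apply card_le_card
      intro e he
      rw [mem_cliques] at he ⊢
      refine ⟨he.1, fun f hf hc => ?_⟩
      rw [mem_cliques]
      exact ⟨hc, fun g hg hgc => he.2 g (hg.trans hf) hgc⟩
    have h4 : ((cliques G r (r' + 1 + 1)).card : ℝ) ≤
        ((cliques (cliques G r (r' + 1)) (r' + 1) (r' + 2)).card : ℝ) := by exact_mod_cast h3
    have h5 := rchoose_succ z (r' + 1)
    push_cast at h5 hzs
    have h6 : (0 : ℝ) < (r' : ℝ) + 2 := by positivity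
    have h7 : ((r' : ℝ) + 2) * ((cliques G r (r' + 1 + 1)).card : ℝ) ≤
        ((r' : ℝ) + 2) * rchoose z (r' + 1 + 1) := by
      calc ((r' : ℝ) + 2) * ((cliques G r (r' + 1 + 1)).card : ℝ)
          ≤ ((r' : ℝ) + 2) * ((cliques (cliques G r (r' + 1)) (r' + 1) (r' + 2)).card : ℝ) :=
            mul_le_mul_of_nonneg_left h4 h6.le
        _ ≤ (z - (r' + 1)) * ((cliques G r (r' + 1)).card : ℝ) := h2
        _ ≤ (z - (r' + 1)) * rchoose z (r' + 1) :=
            mul_le_mul_of_nonneg_left h1 (by linarith)
        _ = ((r' : ℝ) + 2) * rchoose z (r' + 1 + 1) := by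
            rw [← h5]
            ring
    exact le_of_mul_le_mul_left h7 h6

/-! ### The numbers `x(I)` and `x(T)` -/

/-- On a set `I` with `|I| < q` the set of solutions has a largest element, at least `q - 1`. -/
theorem xSet_spec (H : Finset (Finset V)) {q : ℕ} {I : Finset V} (hI : I.card < q) :
    IsGreatest {y : ℝ | (deg H I : ℝ) = rchoose (y - (I.card : ℝ)) (q - I.card)} (xSet H q I) ∧
      (q : ℝ) - 1 ≤ xSet H q I := by
  have hk : 1 ≤ q - I.card := by omega
  have hcast : ((q - I.card : ℕ) : ℝ) = (q : ℝ) - I.card := Nat.cast_sub hI.le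
  obtain ⟨z, hz1, hz2⟩ := exists_rchoose hk (deg H I)
  have hg : IsGreatest {y : ℝ | (deg H I : ℝ) = rchoose (y - (I.card : ℝ)) (q - I.card)}
      (z + I.card) := by
    constructor
    · simp only [Set.mem_ofPred_eq, add_sub_cancel_right]
      exact hz2.symm
    · intro y hy
      simp only [Set.mem_ofPred_eq] at hy
      by_contra hcon
      push Not at hcon
      have h1 : z < y - I.card := by linarith
      have h2 := rchoose_strictMono hk hz1 h1
      rw [hz2, ← hy] at h2
      exact lt_irrefl _ h2
  have he : xSet H q I = z + I.card := hg.csSup_eq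
  rw [he]
  refine ⟨hg, ?_⟩
  rw [hcast] at hz1
  linarith

theorem xSet_le_xMax (H : Finset (Finset V)) (q : ℕ) {i : ℕ} {I T : Finset V} (hIT : I ⊆ T)
    (hI : I.card = i) : xSet H q I ≤ xMax H q i T := by
  unfold xMax
  apply le_csSup (Set.Finite.bddAbove (Set.toFinite _))
  exact ⟨I, ⟨hIT, hI⟩, rfl⟩

/-- The main inequality. -/
theorem main (t q i : ℕ) (htq : q ≤ t) (hqi : i < q) (H : Finset (Finset V))
    (hH : ∀ e ∈ H, e.card = q) :
    ∑ T ∈ cliques H q t, 1 / rchoose (xMax H q i T - q) (t - q) ≤
      (H.card : ℝ) / (t.choose q : ℝ) := by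
  -- the bound for one set
  have hone : ∀ I : Finset V, I.card = i →
      ∑ T ∈ (cliques H q t).filter (fun T => I ⊆ T), 1 / rchoose (xMax H q i T - q) (t - q) ≤
        (deg H I : ℝ) / ((t - i).choose (q - i) : ℝ) := by
    intro I hI
    have hpos : (0 : ℝ) < ((t - i).choose (q - i) : ℝ) := by
      exact_mod_cast Nat.choose_pos (by omega)
    rcases ((cliques H q t).filter fun T => I ⊆ T).eq_empty_or_nonempty with h0 | ⟨T₀, hT₀⟩
    · rw [h0, sum_empty]
      positivity
    rw [mem_filter] at hT₀
    obtain ⟨hx, hxq⟩ := xSet_spec H (q := q) (I := I) (by omega)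
    have hd : (deg H I : ℝ) = rchoose (xSet H q I - (I.card : ℝ)) (q - I.card) := hx.1
    have hcl := sdiff_mem_cliques_link hT₀.1 hT₀.2 (by omega)
    rw [hI] at hd hcl
    have hcast : ((q - i : ℕ) : ℝ) = (q : ℝ) - i := Nat.cast_sub hqi.le
    have hcast2 : ((t - i : ℕ) : ℝ) = (t : ℝ) - i := Nat.cast_sub (by omega)
    have hcast3 : ((t - q : ℕ) : ℝ) = (t : ℝ) - q := Nat.cast_sub htq
    obtain ⟨hc1, hc2⟩ := card_cliques_le (r := q - i) (by omega) (G := link H I)
      (by
        intro e he
        have := link_uniform hH I e he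
        rw [hI] at this
        exact this) (z := xSet H q I - i) (by rw [hcast]; linarith) (by rw [card_link]; exact hd)
      (s := t - i) (by omega) hcl
    rw [hcast2] at hc1
    have hxt : (t : ℝ) ≤ xSet H q I := by linarith
    have hP : 0 < rchoose (xSet H q I - q) (t - q) := rchoose_pos (by rw [hcast3]; linarith)
    have hcount : (((cliques H q t).filter fun T => I ⊆ T).card : ℝ) ≤
        rchoose (xSet H q I - i) (t - i) := by
      have := card_filter_cliques_le (H := H) (q := q) (t := t) I (by omega)
      rw [hI] at this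
      have h2 : (((cliques H q t).filter fun T => I ⊆ T).card : ℝ) ≤
        ((cliques (link H I) (q - i) (t - i)).card : ℝ) := by exact_mod_cast this
      exact h2.trans hc2
    have hid := rchoose_add (xSet H q I - i) (q - i) (t - q)
    have e1 : q - i + (t - q) = t - i := by omega
    have e2 : xSet H q I - i - ((q - i : ℕ) : ℝ) = xSet H q I - q := by rw [hcast]; ring
    rw [e1, e2, ← hd] at hid
    calc ∑ T ∈ (cliques H q t).filter (fun T => I ⊆ T), 1 / rchoose (xMax H q i T - q) (t - q)
        ≤ ∑ T ∈ (cliques H q t).filter (fun T => I ⊆ T),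
            1 / rchoose (xSet H q I - q) (t - q) := by
          apply sum_le_sum
          intro T hT
          rw [mem_filter] at hT
          apply one_div_le_one_div_of_le hP
          apply rchoose_mono
          · rw [hcast3]; linarith
          · have := xSet_le_xMax H q hT.2 hI
            linarith
      _ = (((cliques H q t).filter fun T => I ⊆ T).card : ℝ) *
            (1 / rchoose (xSet H q I - q) (t - q)) := by
          rw [sum_const, nsmul_eq_mul]
      _ ≤ rchoose (xSet H q I - i) (t - i) * (1 / rchoose (xSet H q I - q) (t - q)) := by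
          apply mul_le_mul_of_nonneg_right hcount
          positivity
      _ = (deg H I : ℝ) / ((t - i).choose (q - i) : ℝ) := by
          field_simp
          linarith
  -- double counting
  have hsum : (t.choose i : ℝ) * ∑ T ∈ cliques H q t, 1 / rchoose (xMax H q i T - q) (t - q) =
      ∑ I ∈ (univ : Finset V).powersetCard i,
        ∑ T ∈ (cliques H q t).filter (fun T => I ⊆ T),
          1 / rchoose (xMax H q i T - q) (t - q) := by
    simp_rw [sum_filter]
    rw [sum_comm, mul_sum]
    apply sum_congr rfl
    intro T hT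
    rw [← sum_filter, sum_const, nsmul_eq_mul]
    congr 2
    rw [← (mem_cliques.1 hT).1, ← card_powersetCard]
    congr 1
    ext I
    simp only [mem_powersetCard, mem_filter, subset_univ, true_and]
    tauto
  have hdeg : ∑ I ∈ (univ : Finset V).powersetCard i, (deg H I : ℝ) =
      (H.card : ℝ) * (q.choose i : ℝ) := by
    have h1 : ∑ I ∈ (univ : Finset V).powersetCard i, deg H I = H.card * q.choose i := by
      unfold deg
      simp_rw [card_eq_sum_ones, sum_filter]
      rw [sum_comm]
      rw [sum_mul]
      apply sum_congr rfl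
      intro e he
      rw [← sum_filter, ← card_eq_sum_ones, one_mul, ← hH e he, ← card_powersetCard]
      congr 1
      ext I
      simp only [mem_powersetCard, mem_filter, subset_univ, true_and]
      tauto
    exact_mod_cast h1
  have hcm : ((t.choose q : ℕ) : ℝ) * (q.choose i : ℝ) =
      (t.choose i : ℝ) * ((t - i).choose (q - i) : ℝ) := by
    have := Nat.choose_mul (n := t) hqi.le
    exact_mod_cast this
  have hle : (t.choose i : ℝ) * ∑ T ∈ cliques H q t, 1 / rchoose (xMax H q i T - q) (t - q) ≤
      ((H.card : ℝ) * (q.choose i : ℝ)) / ((t - i).choose (q - i) : ℝ) := by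
    rw [hsum, ← hdeg, sum_div]
    apply sum_le_sum
    intro I hI
    exact hone I (mem_powersetCard.1 hI).2
  have p1 : (0 : ℝ) < (t.choose q : ℝ) := by exact_mod_cast Nat.choose_pos htq
  have p2 : (0 : ℝ) < (q.choose i : ℝ) := by exact_mod_cast Nat.choose_pos hqi.le
  have p3 : (0 : ℝ) < (t.choose i : ℝ) := by exact_mod_cast Nat.choose_pos (by omega)
  have p4 : (0 : ℝ) < ((t - i).choose (q - i) : ℝ) := by
    exact_mod_cast Nat.choose_pos (by omega)
  rw [le_div_iff₀ p4] at hle
  rw [le_div_iff₀ p1]
  have h5 : (q.choose i : ℝ) * ((∑ T ∈ cliques H q t, 1 / rchoose (xMax H q i T - q) (t - q)) *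
      (t.choose q : ℝ)) ≤ (q.choose i : ℝ) * H.card := by
    calc (q.choose i : ℝ) * ((∑ T ∈ cliques H q t, 1 / rchoose (xMax H q i T - q) (t - q)) *
        (t.choose q : ℝ))
        = (((t.choose q : ℕ) : ℝ) * (q.choose i : ℝ)) *
          (∑ T ∈ cliques H q t, 1 / rchoose (xMax H q i T - q) (t - q)) := by ring
      _ = (t.choose i : ℝ) * (∑ T ∈ cliques H q t, 1 / rchoose (xMax H q i T - q) (t - q)) *
          ((t - i).choose (q - i) : ℝ) := by rw [hcm]; ring
      _ ≤ (H.card : ℝ) * (q.choose i : ℝ) := hle
      _ = (q.choose i : ℝ) * H.card := by ring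
  exact le_of_mul_le_mul_left h5 p2

/-- **The localized clique-counting inequality.**  For all `t ≥ q > i ≥ 1` and every
`q`-uniform hypergraph `H` on a finite vertex set: for every `i`-set `I` the number `x(I)` is the
largest real solution of `d(I) = C(x(I) - i, q - i)`; for every `t`-clique `T` the number `x(T)` is
the largest of the numbers `x(I)`, for `I` an `i`-subset of `T`, and `x(T) ≥ t`; and the sum of
`1 / C(x(T) - q, t - q)` over all `t`-cliques `T` is at most `|H| / C(t, q)`. -/
theorem result {V : Type*} [Fintype V] [DecidableEq V] (t q i : ℕ) (htq : q ≤ t) (hqi : i < q)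
    (_hi : 1 ≤ i) (H : Finset (Finset V)) (hH : ∀ e ∈ H, e.card = q) :
    (∀ I : Finset V, I.card = i →
      IsGreatest {y : ℝ | (deg H I : ℝ) = rchoose (y - (I.card : ℝ)) (q - I.card)}
        (xSet H q I)) ∧
    (∀ T ∈ cliques H q t,
      IsGreatest (xSet H q '' {I : Finset V | I ⊆ T ∧ I.card = i}) (xMax H q i T) ∧
        (t : ℝ) ≤ xMax H q i T) ∧
    ∑ T ∈ cliques H q t, 1 / rchoose (xMax H q i T - q) (t - q) ≤
      (H.card : ℝ) / (t.choose q : ℝ) := by
  refine ⟨fun I hI => (xSet_spec H (by omega)).1, fun T hT => ?_, main t q i htq hqi H hH⟩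
  obtain ⟨I, hIT, hI⟩ := exists_subset_card_eq (s := T) (n := i)
    (by rw [(mem_cliques.1 hT).1]; omega)
  have hne : (xSet H q '' {I : Finset V | I ⊆ T ∧ I.card = i}).Nonempty :=
    ⟨_, I, ⟨hIT, hI⟩, rfl⟩
  have hgr : IsGreatest (xSet H q '' {I : Finset V | I ⊆ T ∧ I.card = i}) (xMax H q i T) :=
    ⟨hne.csSup_mem (Set.toFinite _), fun y hy => le_csSup (Set.toFinite _).bddAbove hy⟩
  refine ⟨hgr, ?_⟩
  have hle := xSet_le_xMax H q hIT hI
  obtain ⟨hx, hxq⟩ := xSet_spec H (q := q) (I := I) (by omega)
  have hd : (deg H I : ℝ) = rchoose (xSet H q I - (I.card : ℝ)) (q - I.card) := hx.1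
  have hcl := sdiff_mem_cliques_link hT hIT (by omega)
  rw [hI] at hd hcl
  have hcast : ((q - i : ℕ) : ℝ) = (q : ℝ) - i := Nat.cast_sub hqi.le
  have hcast2 : ((t - i : ℕ) : ℝ) = (t : ℝ) - i := Nat.cast_sub (by omega)
  obtain ⟨hc1, _⟩ := card_cliques_le (r := q - i) (by omega) (G := link H I)
    (by
      intro e he
      have := link_uniform hH I e he
      rw [hI] at this
      exact this) (z := xSet H q I - i) (by rw [hcast]; linarith) (by rw [card_link]; exact hd)
    (s := t - i) (by omega) hcl
  rw [hcast2] at hc1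
  linarith

end Pool.Agent.Results.MP_cab928_co.LocalizedCliques
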